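import Pool.Agent.R940.SConv

/-!
# Bounded generation of the Tate classes on the products with the powers of a CM abelian variety

Let `X` be an abelian variety with complex multiplication over a number field `k` (or any smooth
projective variety whose `ℓ`-adic cohomology is potentially abelian and semisimple: a Fermat variety,
a K3 surface of CM type, a product of such), `b` the sum of its Betti numbers, and let `Z` be ANY
abelian variety (or smooth projective variety) over `k`, of dimension `e`. Put
`N = b * (4 * b ^ 2 + 4 * e + 1) ^ b`. The theorem says that for all `n`

1. all Tate classes on `Z × X ^ (n + 1)` (over all finite extensions of `k`) are contained in the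
   algebra generated by the pull-backs of the Tate classes on the varieties `Z × X ^ (m + 1)` with
   `m + 1 ≤ N` under the projections to `Z` and to `m + 1` of the `n + 1` factors `X`;
2. if the Tate conjecture holds for the single variety `Z × X ^ N` (in all codimensions), then it
   holds for `Z × X ^ (n + 1)`.

The bound does not depend on anything but `b` and `e`: not on `ℓ`, the CM fields, the CM types, the
field `k`, or the Galois representation of `Z`, which is not assumed to be semisimple.

The data: `W` is a Weil cohomology theory (`ℓ`-adic cohomology, with coefficients so large that the
eigenvectors of open subgroups of the Galois group on the cohomology of `X` are defined over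
them, for instance the algebraic closure of `ℚ_ℓ`; the Tate conjecture does not depend on the
coefficients), `G` is the action of the Galois group `Γ`, and `HT` are the Hodge-Tate weights of the
characters of open subgroups which occur in the cohomology. The properties in the definition
`HodgeTateS` are theorems: the Hodge-Tate decomposition (Faltings), and the last one, that a character
which occurs in the cohomology and has the Hodge-Tate weights of a Tate twist is the Tate twist up to
a character of finite order, is class field theory (Serre, Abelian `l`-adic representations).

The proof: a Tate class on `Z × X ^ (n + 1)` is a sum of products `z × (x_1 × ... × x_(n + 1))`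
of eigenvectors, which are Tate classes. If `n + 1 > N` then, since the Hodge-Tate weights of `z` are
bounded by `2 e`, there is a proper nonempty set of factors such that the product of the
corresponding `x_i` has for all embeddings the weights of a Tate twist: this follows from the
pigeonhole principle, for all embeddings at the same time, applied to the multiples of the relative
frequencies of the eigenvectors. So this product is a Tate class, and the product of `z` with the
other `x_i` is a Tate class too.
-/

open CategoryTheory AlgebraicGeometry

universe u v w

namespace Pool.Agent.Results.MP_90d181_ag.BoundedGenerationCM

open Pool.Agent.H914 Pool.Agent.H914.VarClass Pool.Agent.H914.VarClass.Obj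
  Pool.Agent.H914.WeilCohomology Pool.Agent.W534 Pool.Agent.R940
open Pool.Agent.Y163 (pw Big)

theorem result {k : Type u} [Field k] {𝒱 : VarClass k} {ops : CycleOps 𝒱}
    (W : WeilCohomology.{u, v} ops) {Γ : Type w} [Group Γ] (G : GalSys W Γ)
    (HT : HodgeTateS G) (X : 𝒱.Obj) (hX : IsPotAbelianS G X) (D : X.Cycles) (hD : X.IsCyc 1 D)
    (hbig : Big ops X D) (Z : 𝒱.Obj) (N : ℕ)
    (hN : N = cmBound (Module.finrank W.K (W.H X)) Z.dim) (n : ℕ) :
    TateGenerated G Z X N n ∧
    (TateConjS G (Z.prod (pw X (N - 1))) → TateConjS G (Z.prod (pw X n))) := by
  subst hN
  exact stm_cm HT hX hD hbig n

end Pool.Agent.Results.MP_90d181_ag.BoundedGenerationCM
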