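import Mathlib
import Pool.Agent.R915.X7

/-!
# The Tate conjecture for abelian varieties, codimension two, and Weil classes

Let `𝒜` be a system of classes on complex abelian varieties with the formal properties of the system
of the algebraic classes (`Sys`). We consider the abelian varieties `X` over number fields such that
each simple factor `Y` of `X` over the complex numbers satisfies one of the following conditions:

* the dimension of `Y` is at most three;
* `HasCMult Y`: `Y` has complex multiplication, and any dimension;
* `RealOdd Y`: the endomorphism algebra of `Y` is of Albert type I or II and the relative dimension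
  is odd or two (for instance, the endomorphism algebra is `ℚ` and the dimension is odd);
* `QuadTate Y d h`: the endomorphism algebra of `Y` is the imaginary quadratic field generated by
  `h = √-d`, and the two multiplicities of its action on the tangent space are coprime, or both are
  two.

There is no bound for the dimensions in the last three cases, and `X` may be any product of such
varieties, with arbitrary multiplicities. Suppose that `𝒜` contains the following classes.

* The Hodge classes of degree four on the complex abelian varieties with complex multiplication (that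
  is, whose simple factors have complex multiplication).
* The Weil classes of imaginary quadratic fields on the varieties `Y × E^k`, where `Y` satisfies the
  condition `QuadTate Y d h`, the elliptic curve `E` has complex multiplication by the same field
  `ℚ(√-d)`, and `k` is the difference of the two multiplicities of this field on the tangent space
  of `Y`. For the `Y` with `QuadMult Y` (multiplicities at most three, trivial discriminant if the
  dimension is six) nothing is required.

Then, for every `X` as above and every prime number `ℓ`, all `ℓ`-adic Tate classes on `X`, over all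
finite extensions of the number field and in all degrees, are linear combinations with coefficients
in `ℚ_ℓ` of classes in `𝒜`.

So the Tate conjecture for all these `X`, in all codimensions, follows from the Hodge conjecture in
codimension two for complex abelian varieties with complex multiplication, together with the
algebraicity of the Weil classes on the varieties `Y × E^k`.

The hypotheses on the Tate module (`IsTateModule`) are theorems: the theorem of Faltings, the
Hodge-Tate decomposition and its endomorphisms, and the fact that the Lie algebra of the Galois group
is generated by Hodge-Tate elements.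
-/

namespace Pool.Agent.Results.MP_90d181_ag.CodimTwoAndWeilClasses

open Module Pool.Agent.Y90 Pool.Agent.R915 TensorProduct
open Pool.Agent.H204R3.CM (IsHodge)
open Pool.Agent.Y224.TS.St (IsTateModule)

theorem result (𝒜 : Sys)
    (H1 : ∀ X : AV, (∀ Y, IsFactor Y X → HasCMult Y) → ∀ f : X.H [⋀^Fin 4]→ₗ[ℚ] ℚ,
      IsHodge X.per f → 𝒜.A X (Fin 4) f)
    (H2 : ∀ (Y X : AV) (d : ℚ) (h : Y.H →ₗ[ℚ] Y.H), IsSimple Y → QuadTate Y d h → ¬ QuadMult Y →
      WeilExt Y d h X → 𝒜.AllWeil X)
    (X : AV)
    (hX : ∀ Y, IsFactor Y X → finrank ℚ Y.H ≤ 6 ∨ HasCMult Y ∨ RealOdd Y ∨ ∃ d h, QuadTate Y d h)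
    (E : X.H → X.H → ℚ) (hE : St.IsPolarization X.per E)
    (ℓ : ℕ) [Fact ℓ.Prime] [Algebra ℚ_[ℓ] ℂ] [Algebra.IsAlgebraic ℚ_[ℓ] ℂ]
    {Γ : Type} [Group Γ] (ρ : Representation ℚ_[ℓ] Γ (ℚ_[ℓ] ⊗[ℚ] X.H)) (χ : Γ →* ℚ_[ℓ])
    (hρ : IsTateModule X.per E ρ χ) {κ : Type} [Finite κ] {m : ℕ}
    (φ : (ℚ_[ℓ] ⊗[ℚ] X.H) [⋀^κ]→ₗ[ℚ_[ℓ]] ℚ_[ℓ]) (hφ : IsTateForm ρ χ φ m) :
    CombOf (𝒜.A X κ) φ :=
  tate_codim_two X 𝒜 hX H1 H2 hE hρ hφ

end Pool.Agent.Results.MP_90d181_ag.CodimTwoAndWeilClasses
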