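import Pool.Agent.R918.Ks15

set_option autoImplicit false

/-!
# The Tate conjecture for the powers of Kuga-Satake varieties of K3 surfaces with abelian motive

Let `X` be a K3 surface over a number field `k` (or any smooth projective variety with a polarized motive
of K3 type `T` as a direct summand of `H ^ 2 (X)(1)` for which the Mumford-Tate conjecture is known),
such that the endomorphism field of the transcendental part `T` is `ℚ` and the rank of `T` is odd. Let
`K = KS(X)` be its Kuga-Satake abelian variety, it is defined over a finite extension of `k`. We show:

**Theorem.** Suppose that for some abelian variety `A'` over a number field and some `n` there is an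
algebraic cycle on `X × A' ^ n` whose class acts on `T` by a nonzero map, that is, `T` is a direct
summand of the motive of some abelian variety, in the category of motives for homological
equivalence. Then the Tate conjecture (and the Hodge conjecture) holds for all powers of `K` in all
codimensions: all Tate classes are combinations of classes of algebraic cycles.

For motives for absolute Hodge or for motivated cycles the hypothesis holds for all K3 surfaces (Deligne,
Andre), and the theorem says that this hypothesis for algebraic cycles, for the surface `X` alone, is
sufficient for all Tate classes on the powers of the abelian variety `K`, of dimension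
`2 ^ (rank T - 2)`, which has in general many exceptional Tate classes. It does not assume any
relation between `A'` and `K`, and nothing about the Tate conjecture for `A'`.

## Translation

Replace `A'` by `A' × K`. The Hodge Lie algebra of `X × A'` is the sum of `so(T)` and of an ideal `n`. By
the classification of symplectic representations (Deligne, Satake) `so(T)` acts on `H ^ 1 (A', ℂ)` by
multiples of the spin representation and of the trivial representation. Let `M` be a basis of the spin
part `H` (it contains `H ^ 1 (K)`), let `N` be a basis of the other part `H'`. The weights of the Hodge
cocharacter show that `n` acts on `H` by scalars (universality of the Kuga-Satake construction), so the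
endomorphisms of `H` which commute with `so(T)` are morphisms of Hodge structures and hence algebraic
(Lefschetz; in the `ℓ`-adic version one can use Faltings). The Clifford algebra of `T` acts on the spin
representation, since `rank T` is odd, and so on `H`, by operators `L_b`, `b` in an orthonormal basis `B`
of `T`. The coefficients are in `ℂ` or in an algebraic closure of `ℚ_ℓ`. Let `𝒜.A S U` be the space of
the linear combinations of the algebraic classes in `T ^ ⊗ S ⊗ End(H ⊕ H') ^ ⊗ U`. Algebraic classes are
Hodge classes, so they are killed by `so(T)`, which acts by zero on `H'`. By the Mumford-Tate conjecture
for `T` and `K` (Tankeev, Andre) the Tate classes on the powers of `K` are the forms killed by `so(T)`.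
The set `ι` of blocks is a point if the endomorphism field is `ℚ`; then `SquareAlgebraic` holds for
every system. (In general the blocks are the eigenspaces of a totally real field of endomorphisms, with
eigenspaces of odd dimension; then one has to assume that its elements are algebraic on `X × X` and that
`H ^ 1 (A')` is of the form above.) If a cycle on `X × A' ^ n` acts on `T` by a nonzero map, one uses that
numerical and homological equivalence coincide for the products of `X` and abelian varieties
(Lieberman) to obtain a direct summand.

## Proof

Let `t : T → W = End(H ⊕ H') ^ ⊗ n` and `s : W → T` be algebraic with `s t = 1`. The map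
`X ↦ s (X t(a))`, where `End(H)` acts on `W` by derivations, is an algebraic correspondence from
`End(H)` to `End(T)`. It is the natural action on the elements of `so(T)`. Its transpose, restricted to
antisymmetric tensors, is `(a, b) ↦ L_a L_b η` for some nonzero `η` which commutes with `so(T)`. These
elements form a central simple algebra `D`, so `(a, b) ↦ L_a L_b` is algebraic. Let
`C = ∑ a, L_a ⊗ L_a`. Then `C ^ 2` is algebraic, and so is `ω ⊗ ω`, where `ω` in `D` is the product of the
`L_a`. As the `L_a ⊗ L_a` are an odd number of commuting involutions, `C` is the product of a polynomial in
`C ^ 2` and of `ω ⊗ ω`, and it is algebraic. This class suffices for all Tate classes on the powers of `K`,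
see `MP_9d7ff6_ag.KugaSatakePowers`.
-/

universe u

namespace Pool.Agent.Results.MP_90d181_ag.KugaSatakeOfAbelianMotive

open Pool.Agent.R914.K3P Pool.Agent.R918.KS

/-- **Theorem.** Let all blocks be odd and let the forms in the system `𝒜` be killed by the Lie
algebras `so` of the blocks, which act on matrices of size `M ⊕ N` by the matrices `L b` of size `M` and
by zero on `N`. Suppose that the endomorphisms of the factor and the scalar products of the blocks are
algebraic. If the vectors are a direct summand of tensor powers of the matrices of size `M ⊕ N`, then all
forms in matrices of size `M` killed by the Lie algebras are algebraic; and if numerical and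
homological equivalence coincide, it is enough that for each block there is a form in one vector and
any number of matrices of size `M ⊕ N` in the system which is not zero on the block. -/
theorem result {K : Type u} [Field K] [CharZero K] {B ι M N : Type} [Fintype B] [DecidableEq B]
    [Fintype ι] [DecidableEq ι] [Fintype M] [DecidableEq M] [Nonempty M] [Fintype N] [DecidableEq N]
    (κ : B → ι) (L : B → Matrix M M K) (hL : IsClifford L) (𝒜 : MixedSystem K B (M ⊕ N))
    (hH : AlgebraicIsHodge κ (fun b => corner N (L b)) 𝒜)
    (hE : CornerEndomorphismsAlgebraic κ L 𝒜)
    (hodd : ∀ b : B, Odd (Fintype.card {c // κ c = κ b})) (hsq : SquareAlgebraic κ 𝒜) :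
    (IsMotivated κ 𝒜 → CornerAllAlgebraic κ L 𝒜) ∧
    (NumericalIsHomological 𝒜 → HasSomeCorrespondence κ 𝒜 → CornerAllAlgebraic κ L 𝒜) := by
  have hodd' : ∀ i, (∃ b, κ b = i) → Odd (Finset.univ.filter fun b => κ b = i).card := by
    rintro _ ⟨b, rfl⟩
    have h1 := hodd b
    rwa [Fintype.card_subtype] at h1
  exact ⟨corner_main hL hH hE hodd' hsq, fun hN h => corner_main hL hH hE hodd' hsq
    (motivated_of_some hH hodd' hsq hN h)⟩

end Pool.Agent.Results.MP_90d181_ag.KugaSatakeOfAbelianMotive
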