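import Pool.Agent.R940.VHTFin

/-!
# A uniform dichotomy for the Tate classes on the products with the powers of a CM abelian variety

Let `X` be an abelian variety with complex multiplication over a number field `k` (or any smooth
projective variety over `k` whose `ℓ`-adic cohomology is potentially abelian and semisimple and whose
even Künneth projector is algebraic), `d` its dimension, `b` the sum of its Betti numbers, and let `Z` be
ANY abelian variety over `k` (or any smooth projective variety whose even Künneth projector
is algebraic), of dimension `e`. Put `N = b * (4 * b ^ 2 + 4 * e + 1) ^ b`. For `0 ≤ i ≤ e` and `n ≥ 0`
let

* `t i n` be the dimension of the space of the Tate classes (over all finite extensions of `k`) of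
  codimension `(n + 1) d + i` on `Z × X ^ (2 n + 2)`,
* `s i n` the rank of the group of the cycles of codimension `(n + 1) d + i` on `Z × X ^ (2 n + 2)`
  modulo numerical equivalence,
* `ρ n` the rank of the group of the cycles of codimension `(n + 1) d` on `X ^ (2 n + 2)` modulo
  numerical equivalence.

Theorem. One of the following holds.

1. The Tate conjecture holds for `Z × X ^ n` for ALL `n`, in all codimensions and over all finite
   extensions of `k`; and if the cohomology of `Z` is also potentially abelian and semisimple (for
   instance if `Z` is a point or has complex multiplication), then numerical and homological
   equivalence agree on all `Z × X ^ n`.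
2. There is an `i ≤ e` such that for ALL `n ≥ 1`

     `t i n ≥ s i n + (1 - N b ^ (2 N + 2) log (n + 2) / n) ρ n`.

The constant depends only on `b` and `e`: not on `ℓ`, the CM fields, the CM types, the field `k`, or the
Galois representation of `Z`, which is not assumed to be semisimple. It is known (by the earlier files)
that `s i n ≤ b(Z) ρ n`, where `b(Z)` is the sum of the Betti numbers of `Z`; so in the second case, for all
`n` larger than an explicit function of `b` and `e`, at least the proportion `1 / (2 b(Z) + 1)` of the
Tate classes is not algebraic modulo numerical equivalence. In particular, for a CM abelian variety `X`
of dimension `g` and ONE `n` larger than an explicit function of `g`, an upper bound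
`t < (3 / 2) s` for the number `t` of the Tate classes of codimension `(n + 1) g` on
`X ^ (2 n + 2)`, in terms of the number `s` of the independent algebraic classes, implies the Tate
conjecture (and the equality of homological and numerical equivalence) for all powers of `X`.

The data: `W` is a Weil cohomology theory (`ℓ`-adic cohomology, with coefficients so large that the
eigenvectors of open subgroups of the Galois group on the cohomology of `X` are defined over
them), `G` is the action of the Galois group `Γ`, and `HT` are the Hodge-Tate weights of the characters of
open subgroups which occur in the cohomology; the properties in the definition `HTW` are theorems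
(Faltings; and Serre, Abelian `l`-adic representations, for the last one).

The proof combines the bounded generation of the Tate classes with the excess law for arbitrary
systems of classes, and Poincaré duality for the eigenvectors.
-/

open CategoryTheory AlgebraicGeometry

universe u v w

namespace Pool.Agent.Results.MP_90d181_ag.UniformExcessCM

open Pool.Agent.H914 Pool.Agent.H447 Pool.Agent.W534 Pool.Agent.Y163 Pool.Agent.R940
  VarClass Obj

/-- The Tate conjecture holds for `Z × X ^ n` for all `n`, or the Tate classes on all `Z × X ^ (2 n + 2)`
exceed the cycles modulo numerical equivalence, with an error term that depends only on the Betti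
numbers of `X` and the dimension of `Z`. -/
theorem result {k : Type u} [Field k] {𝒱 : VarClass k} {ops : CycleOps 𝒱}
    (W : WeilCohomology.{u, v} ops) {Γ : Type w} [Group Γ] (G : GSys W Γ) (HT : HTWeights G)
    (X Z : 𝒱.Obj) (hXa : PotAbelianG G X) (hX : SignStd W X) (hZ : SignStd W Z)
    (D : X.Cycles) (hD : X.IsCyc 1 D) (hbig : Big ops X D) (N : ℕ)
    (hN : N = cmBound (betti W X) Z.dim) :
    ((∀ n, TateAll G (Z.prod (pw X n))) ∧
      (PotAbelianG G Z → ∀ n, HomEqNum W (Z.prod (pw X n)))) ∨
      ExcessG G Z X (N * betti W X ^ (2 * N + 2)) :=
  uniform_cm HT hXa hX hZ hD hbig hN

end Pool.Agent.Results.MP_90d181_ag.UniformExcessCM
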